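import Mathlib

set_option autoImplicit false
set_option linter.unusedSimpArgs false
set_option linter.unnecessarySeqFocus false

/-!
MP_7a7825_ag: a disconnected positive polytope (with `m = 1`, a positive pentahedron) in the
real Grassmannian `Gr(2,4)`.
-/

open MvPolynomial Filter Topology
open scoped LinearAlgebra.Projectivization

namespace Pool.Agent.Results.MP_7a7825_ag.DisconnectedPositivePolytope

/-! ### Definitions -/

/-- `ℝ⁶` with the Plücker coordinates `(p₁₂, p₁₃, p₂₃, p₁₄, p₂₄, p₃₄)` -/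
abbrev V : Type := Fin 6 → ℝ

/-- the real points of `ℙ⁵` -/
abbrev P5 : Type := ℙ ℝ V

/-- the Euclidean topology on `ℙ⁵(ℝ)`: the quotient topology from `ℝ⁶ ∖ {0}` -/
noncomputable instance : TopologicalSpace P5 :=
  TopologicalSpace.coinduced (Projectivization.mk' ℝ : {v : V // v ≠ 0} → P5) inferInstance

/-- the Plücker quadric `p₁₂ p₃₄ - p₁₃ p₂₄ + p₁₄ p₂₃` -/
def plucker (v : V) : ℝ := v 0 * v 5 - v 1 * v 4 + v 3 * v 2

/-- the real Grassmannian `Gr(2,4)` in its Plücker embedding -/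
def Gr : Set P5 := {x | plucker x.rep = 0}

/-- the subset of `ℙ⁵(ℝ)` given by the linear inequalities `lᵢ ≥ 0` (sign convention) -/
def region {ι : Type} (l : ι → V →ₗ[ℝ] ℝ) : Set P5 :=
  {x | ∀ i j, 0 ≤ l i x.rep * l j x.rep}

/-- the hyperplane `l = 0` -/
def hyperplane (l : V →ₗ[ℝ] ℝ) : Set P5 := {x | l x.rep = 0}

/-- `P` is a simple polytope in `ℙ⁵`, with one facet on each of the hyperplanes `lᵢ = 0`:
it is given by the inequalities `lᵢ ≥ 0`; in the affine chart `c ≠ 0` it is the bounded convex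
set `{c = 1, lᵢ ≥ 0}`, which is full-dimensional and has a facet on each `lᵢ = 0`; and the
arrangement of the hyperplanes `lᵢ = 0` is simple (any at most six of the `lᵢ` are linearly
independent). -/
structure IsSimplePolytope {ι : Type} (l : ι → V →ₗ[ℝ] ℝ) (P : Set P5) : Prop where
  eq_region : P = region l
  chart : ∃ c : V →ₗ[ℝ] ℝ,
    Bornology.IsBounded {v : V | c v = 1 ∧ ∀ i, 0 ≤ l i v} ∧
    P = {x | ∃ v : V, ∃ hv : v ≠ 0, c v = 1 ∧ (∀ i, 0 ≤ l i v) ∧ x = Projectivization.mk ℝ v hv} ∧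
    (∃ v : V, c v = 1 ∧ ∀ i, 0 < l i v) ∧
    ∀ i, ∃ v : V, c v = 1 ∧ l i v = 0 ∧ ∀ j, j ≠ i → 0 < l j v
  simple : ∀ s : Finset ι, s.card ≤ 6 → LinearIndependent ℝ (fun i : s => l i)

/-- the interior of `S` relative to `G` -/
def relInt (G S : Set P5) : Set P5 := {x | x ∈ G ∧ S ∈ 𝓝[G] x}

/-- Zariski closed subsets of `ℙ⁵(ℝ)`: common zero sets of homogeneous real polynomials -/
def IsZariskiClosed (Z : Set P5) : Prop :=
  ∃ I : Set (MvPolynomial (Fin 6) ℝ), (∀ f ∈ I, ∃ n, f.IsHomogeneous n) ∧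
    Z = {x | ∀ f ∈ I, eval x.rep f = 0}

/-- the Zariski closure of a subset of `ℙ⁵(ℝ)` -/
def zariskiClosure (T : Set P5) : Set P5 := ⋂₀ {Z | IsZariskiClosed Z ∧ T ⊆ Z}

/-- irreducible Zariski closed subsets -/
def IsIrred (Z : Set P5) : Prop :=
  IsZariskiClosed Z ∧ Z.Nonempty ∧ ∀ A B, IsZariskiClosed A → IsZariskiClosed B → Z ⊆ A ∪ B →
    Z ⊆ A ∨ Z ⊆ B

/-- irreducible components -/
def IsComponent (C Z : Set P5) : Prop :=
  IsIrred C ∧ C ⊆ Z ∧ ∀ C', IsIrred C' → C' ⊆ Z → C ⊆ C' → C' = C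

/-- the algebraic boundary of `S ⊆ Gr(2,4)`: the Zariski closure of `∂S`, which is `S` minus its
interior in `Gr(2,4)` -/
def algBoundary (S : Set P5) : Set P5 := zariskiClosure (S \ relInt Gr S)

/-- for a component `C` of the algebraic boundary of `S`, the facet `C_{≥0}` of `S`: the closure
in `C` of the interior in `C` of `C ∩ S` -/
def facet (C S : Set P5) : Set P5 := C ∩ closure (relInt C (C ∩ S))

/-- the coordinate `pᵢ` as a linear form -/
def coord (i : Fin 6) : V →ₗ[ℝ] ℝ := LinearMap.proj i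

/-- `S` is a positive polytope in `Gr(2,4)` (with parameter `m` and linear forms `h`): `S` is the
intersection with `Gr(2,4)` of a simple polytope `P ⊆ ℙ⁵_{≥0}` with `m + 6` facets, six on the
coordinate hyperplanes and `m` on the `hᵢ = 0`; `S` is the closure of its interior in `Gr(2,4)`;
and `S` has exactly `m + 4` facets, namely one on each of the hyperplanes `p₁₂ = 0`, `p₁₄ = 0`,
`p₂₃ = 0`, `p₃₄ = 0` and `hᵢ = 0`. -/
def IsPositivePolytope (m : ℕ) (h : Fin m → V →ₗ[ℝ] ℝ) (S : Set P5) : Prop :=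
  ∃ P : Set P5, IsSimplePolytope (Sum.elim coord h) P ∧ P ⊆ region coord ∧ S = P ∩ Gr ∧
    closure (relInt Gr S) = S ∧
    ∃ C : Fin 4 ⊕ Fin m → Set P5,
      (∀ D, IsComponent D (algBoundary S) ↔ ∃ i, C i = D) ∧
      (∀ i, C i ⊆ hyperplane ((Sum.elim (fun k => coord (![0, 3, 2, 5] k)) h :
        Fin 4 ⊕ Fin m → V →ₗ[ℝ] ℝ) i)) ∧
      Function.Injective C ∧ (Function.Injective fun i => facet (C i) S) ∧
      ∀ i, (facet (C i) S).Nonempty

/-! ### The quotient map -/

/-- the quotient map -/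
noncomputable abbrev π : {v : V // v ≠ 0} → P5 := Projectivization.mk' ℝ

lemma rep_eq (v : {v : V // v ≠ 0}) : ∃ a : ℝ, a ≠ 0 ∧ (π v).rep = a • v.1 := by
  obtain ⟨a, ha⟩ := Projectivization.exists_smul_eq_mk_rep ℝ v.1 v.2
  exact ⟨a, a.ne_zero, ha.symm⟩

lemma π_open : IsOpenQuotientMap π := by
  refine ⟨?_, ?_, ?_⟩
  · intro x
    exact ⟨⟨x.rep, x.rep_nonzero⟩, Projectivization.mk_rep x⟩
  · exact continuous_coinduced_rng
  · intro U hU
    change IsOpen (π ⁻¹' (π '' U))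
    have h1 : π ⁻¹' (π '' U) = ⋃ a : ℝˣ, (fun w : {v : V // v ≠ 0} =>
        (⟨(a : ℝ) • w.1, smul_ne_zero a.ne_zero w.2⟩ : {v : V // v ≠ 0})) ⁻¹' U := by
      ext w
      simp only [Set.mem_preimage, Set.mem_image, Set.mem_iUnion]
      constructor
      · rintro ⟨v, hv, hvw⟩
        obtain ⟨a, ha⟩ := (Projectivization.mk_eq_mk_iff ℝ v.1 w.1 v.2 w.2).mp hvw
        refine ⟨a, ?_⟩
        convert hv
        exact ha
      · rintro ⟨a, ha⟩
        refine ⟨_, ha, ?_⟩
        exact (Projectivization.mk_eq_mk_iff ℝ _ _ _ _).mpr ⟨a, rfl⟩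
    rw [h1]
    apply isOpen_iUnion
    intro a
    apply hU.preimage
    fun_prop

/-- induction on points of projective space -/
lemma π_surj (x : P5) : ∃ v, π v = x := π_open.surjective x

lemma plucker_smul (a : ℝ) (v : V) : plucker (a • v) = a ^ 2 * plucker v := by
  simp only [plucker, Pi.smul_apply, smul_eq_mul]; ring

lemma mem_Gr (v : {v : V // v ≠ 0}) : π v ∈ Gr ↔ plucker v.1 = 0 := by
  obtain ⟨a, ha, h⟩ := rep_eq v
  change plucker (π v).rep = 0 ↔ _
  rw [h, plucker_smul]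
  simp [ha]

lemma mem_region {ι : Type} (l : ι → V →ₗ[ℝ] ℝ) (v : {v : V // v ≠ 0}) :
    π v ∈ region l ↔ ∀ i j, 0 ≤ l i v.1 * l j v.1 := by
  obtain ⟨a, ha, h⟩ := rep_eq v
  change (∀ i j, 0 ≤ l i (π v).rep * l j (π v).rep) ↔ _
  have ha2 : 0 < a * a := mul_self_pos.mpr ha
  have : ∀ i j, l i (π v).rep * l j (π v).rep = (a * a) * (l i v.1 * l j v.1) := by
    intro i j
    rw [h, map_smul, map_smul, smul_eq_mul, smul_eq_mul]; ring
  simp only [this, mul_nonneg_iff_of_pos_left ha2]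

lemma mem_hyperplane (l : V →ₗ[ℝ] ℝ) (v : {v : V // v ≠ 0}) :
    π v ∈ hyperplane l ↔ l v.1 = 0 := by
  obtain ⟨a, ha, h⟩ := rep_eq v
  change l (π v).rep = 0 ↔ _
  rw [h, map_smul, smul_eq_mul]
  simp [ha]

lemma eval_rep {n : ℕ} {f : MvPolynomial (Fin 6) ℝ} (hf : f.IsHomogeneous n)
    (v : {v : V // v ≠ 0}) : eval (π v).rep f = 0 ↔ eval v.1 f = 0 := by
  obtain ⟨a, ha, h⟩ := rep_eq v
  rw [h]
  have : eval (a • v.1) f = a ^ n * eval v.1 f := by
    rw [eval_eq', eval_eq', Finset.mul_sum]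
    apply Finset.sum_congr rfl
    intro d hd
    have h1 : ∑ i, d i = n := by
      have h2 : d.degree = n := by
        by_contra h2
        exact (mem_support_iff.mp hd) (hf.coeff_eq_zero h2)
      rw [← h2, Finsupp.degree_eq_sum]
    have h2 : ∏ i, (a • v.1) i ^ d i = a ^ n * ∏ i, v.1 i ^ d i := by
      rw [← h1, ← Finset.prod_pow_eq_pow_sum, ← Finset.prod_mul_distrib]
      apply Finset.prod_congr rfl
      intro i _
      rw [Pi.smul_apply, smul_eq_mul, mul_pow]
    rw [h2]; ring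
  rw [this]
  simp [ha]

lemma mem_relInt (G S : Set P5) (v : {v : V // v ≠ 0}) :
    π v ∈ relInt G S ↔ π v ∈ G ∧
      ∀ᶠ u in 𝓝 v.1, ∀ hu : u ≠ 0, π ⟨u, hu⟩ ∈ G → π ⟨u, hu⟩ ∈ S := by
  change (π v ∈ G ∧ S ∈ 𝓝[G] (π v)) ↔ _
  rw [mem_nhdsWithin_iff_eventually, ← π_open.map_nhds_eq, eventually_map]
  have h1 : IsOpen {v : V | v ≠ 0} := isOpen_ne
  rw [← h1.isOpenEmbedding_subtypeVal.map_nhds_eq v, eventually_map]
  constructor
  · rintro ⟨h, h2⟩
    refine ⟨h, h2.mono ?_⟩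
    rintro w hw _
    exact hw
  · rintro ⟨h, h2⟩
    refine ⟨h, h2.mono ?_⟩
    rintro w hw
    exact hw w.2

lemma closure_of_path (v : {v : V // v ≠ 0}) (w : ℝ → V) (hw : Tendsto w (𝓝[>] 0) (𝓝 v.1))
    (A : Set P5) (h : ∀ᶠ ε in 𝓝[>] (0 : ℝ), ∀ hu : w ε ≠ 0, π ⟨w ε, hu⟩ ∈ A) :
    π v ∈ closure A := by
  classical
  have hne : ∀ᶠ ε in 𝓝[>] (0 : ℝ), w ε ≠ 0 := hw.eventually (isOpen_ne.mem_nhds v.2)
  let w' : ℝ → {v : V // v ≠ 0} := fun ε => if h : w ε ≠ 0 then ⟨w ε, h⟩ else v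
  have hw' : Tendsto w' (𝓝[>] 0) (𝓝 v) := by
    rw [tendsto_subtype_rng]
    refine hw.congr' ?_
    filter_upwards [hne] with ε hε
    simp [w', hε]
  have h1 : Tendsto (fun ε => π (w' ε)) (𝓝[>] 0) (𝓝 (π v)) :=
    (π_open.continuous.tendsto v).comp hw'
  refine mem_closure_of_tendsto h1 ?_
  filter_upwards [hne, h] with ε h2 h3
  have : w' ε = ⟨w ε, h2⟩ := by simp [w', h2]
  rw [this]
  exact h3 h2

lemma not_relInt_of_path (G S : Set P5) (v : {v : V // v ≠ 0}) (w : ℝ → V)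
    (hw : Tendsto w (𝓝[>] 0) (𝓝 v.1))
    (h : ∀ ε > (0 : ℝ), ∀ hu : w ε ≠ 0, π ⟨w ε, hu⟩ ∈ G ∧ π ⟨w ε, hu⟩ ∉ S) :
    π v ∉ relInt G S := by
  rw [mem_relInt]
  rintro ⟨-, h1⟩
  have h2 := hw.eventually h1
  have hne : ∀ᶠ ε in 𝓝[>] (0 : ℝ), w ε ≠ 0 := hw.eventually (isOpen_ne.mem_nhds v.2)
  have h3 : ∀ᶠ ε in 𝓝[>] (0 : ℝ), (0 : ℝ) < ε := eventually_mem_nhdsWithin
  obtain ⟨ε, h4, h5, h6⟩ := (h2.and (hne.and h3)).exists
  exact (h ε h6 h5).2 (h4 h5 (h ε h6 h5).1)

/-! ### The example -/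

/-- the linear form `4 (p₁₂ + p₃₄) - 5 (p₁₃ + p₂₄) - 3 (p₁₄ + p₂₃)` -/
noncomputable def hf : V →ₗ[ℝ] ℝ :=
  (4 : ℝ) • (coord 0 + coord 5) - (5 : ℝ) • (coord 1 + coord 4) - (3 : ℝ) • (coord 3 + coord 2)

lemma hf_apply (v : V) : hf v = 4 * (v 0 + v 5) - 5 * (v 1 + v 4) - 3 * (v 3 + v 2) := by
  simp [hf, coord]; ring

/-- all seven linear forms -/
noncomputable def L : Fin 6 ⊕ Fin 1 → V →ₗ[ℝ] ℝ := Sum.elim coord (fun _ => hf)

lemma continuous_plucker : Continuous plucker := by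
  unfold plucker
  fun_prop

lemma forall_L (P : ℝ → Prop) (v : V) : (∀ i, P (L i v)) ↔
    (P (v 0) ∧ P (v 1) ∧ P (v 2) ∧ P (v 3) ∧ P (v 4) ∧ P (v 5)) ∧ P (hf v) := by
  constructor
  · intro h
    exact ⟨⟨h (Sum.inl 0), h (Sum.inl 1), h (Sum.inl 2), h (Sum.inl 3), h (Sum.inl 4),
      h (Sum.inl 5)⟩, h (Sum.inr 0)⟩
  · rintro ⟨⟨h0, h1, h2, h3, h4, h5⟩, h6⟩ (i | i)
    · fin_cases i <;> assumption
    · exact h6

lemma continuous_L (i) : Continuous fun v => L i v := LinearMap.continuous_of_finiteDimensional _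

/-- the positive pentahedron -/
noncomputable def S0 : Set P5 := region L ∩ Gr

lemma mem_S0 (v : {v : V // v ≠ 0}) :
    π v ∈ S0 ↔ (∀ i j, 0 ≤ L i v.1 * L j v.1) ∧ plucker v.1 = 0 := by
  rw [S0, Set.mem_inter_iff, mem_region, mem_Gr]

lemma normalize {x : P5} (hx : x ∈ region L) :
    ∃ v : {v : V // v ≠ 0}, π v = x ∧ ∀ i, 0 ≤ L i v.1 := by
  obtain ⟨u, rfl⟩ := π_surj x
  rw [mem_region] at hx
  by_cases h : ∃ i, 0 < L i u.1
  · obtain ⟨i, hi⟩ := h
    exact ⟨u, rfl, fun j => (mul_nonneg_iff_of_pos_left hi).mp (hx i j)⟩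
  · push Not at h
    refine ⟨⟨-u.1, neg_ne_zero.mpr u.2⟩, ?_, ?_⟩
    · exact (Projectivization.mk_eq_mk_iff' ℝ _ _ _ _).mpr ⟨-1, by simp⟩
    · intro i
      change 0 ≤ L i (-u.1)
      rw [map_neg]
      linarith [h i]

lemma S0_of_nonneg (v : {v : V // v ≠ 0}) (h : ∀ i, 0 ≤ L i v.1) (hp : plucker v.1 = 0) :
    π v ∈ S0 := by
  rw [mem_S0]
  exact ⟨fun i j => mul_nonneg (h i) (h j), hp⟩

lemma S0_closed : IsClosed S0 := by
  rw [← π_open.isQuotientMap.isClosed_preimage]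
  have h1 : π ⁻¹' S0 = {v | (∀ i j, 0 ≤ L i v.1 * L j v.1) ∧ plucker v.1 = 0} := by
    ext v
    exact mem_S0 v
  rw [h1]
  have h2 : ∀ i, Continuous fun v : {v : V // v ≠ 0} => L i v.1 := fun i =>
    (continuous_L i).comp continuous_subtype_val
  have h3 : Continuous fun v : {v : V // v ≠ 0} => plucker v.1 :=
    continuous_plucker.comp continuous_subtype_val
  apply IsClosed.inter
  · have : {v : {v : V // v ≠ 0} | ∀ i j, 0 ≤ L i v.1 * L j v.1} =
        ⋂ i, ⋂ j, {v | 0 ≤ L i v.1 * L j v.1} := by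
      ext v; simp
    change IsClosed {v : {v : V // v ≠ 0} | ∀ i j, 0 ≤ L i v.1 * L j v.1}
    rw [this]
    exact isClosed_iInter fun i => isClosed_iInter fun j =>
      isClosed_le continuous_const ((h2 i).mul (h2 j))
  · exact isClosed_eq h3 continuous_const

/-- strict points are interior -/
lemma strict_mem (v : {v : V // v ≠ 0}) (h : ∀ i, 0 < L i v.1) (hp : plucker v.1 = 0) :
    π v ∈ relInt Gr S0 := by
  rw [mem_relInt]
  refine ⟨(mem_Gr v).mpr hp, ?_⟩
  have h1 : ∀ᶠ u in 𝓝 v.1, ∀ i, 0 < L i u := by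
    rw [eventually_all]
    intro i
    exact (continuous_L i).continuousAt.eventually_mem (isOpen_Ioi.mem_nhds (h i))
  filter_upwards [h1] with u hu hu0 hG
  rw [mem_Gr] at hG
  exact S0_of_nonneg ⟨u, hu0⟩ (fun i => (hu i).le) hG

lemma relInt_subset (G S : Set P5) : relInt G S ⊆ S := by
  rintro x ⟨h1, h2⟩
  exact mem_of_mem_nhdsWithin h1 h2

/-- on `S0` the coordinates `p₁₂` and `p₃₄` differ -/
lemma ne_of_mem (v : V) (h0 : v ≠ 0) (h : ∀ i, 0 ≤ L i v) (hp : plucker v = 0) : v 0 ≠ v 5 := by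
  rw [forall_L] at h
  obtain ⟨⟨a0, a1, a2, a3, a4, a5⟩, a6⟩ := h
  rw [hf_apply] at a6
  unfold plucker at hp
  intro he
  rw [← he] at hp a6 a5
  -- `v1 v4 = v0² + v3 v2 ≥ v0²`, `8 v0 ≥ 5 (v1 + v4) + 3 (v3 + v2)`
  have h1 : 5 * (v 1 + v 4) ≤ 8 * v 0 := by linarith
  have h2 : (5 * (v 1 + v 4)) ^ 2 ≤ (8 * v 0) ^ 2 := pow_le_pow_left₀ (by positivity) h1 2
  have h3 : 0 ≤ v 3 * v 2 := mul_nonneg a3 a2
  have h4 : 0 ≤ (v 1 - v 4) ^ 2 := sq_nonneg _
  have h5 : v 0 ^ 2 ≤ 0 := by nlinarith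
  have h6 : v 0 = 0 := by
    have := le_antisymm h5 (sq_nonneg _)
    exact pow_eq_zero_iff (two_ne_zero) |>.mp this
  apply h0
  rw [h6] at a6
  funext i
  fin_cases i
  · exact h6
  · change v 1 = 0; linarith
  · change v 2 = 0; linarith
  · change v 3 = 0; linarith
  · change v 4 = 0; linarith
  · change v 5 = 0; rw [← he]; exact h6

lemma tendsto_of_continuous (w : ℝ → V) (hw : Continuous w) (v : V) (h0 : w 0 = v) :
    Tendsto w (𝓝[>] 0) (𝓝 v) := by
  rw [← h0]
  exact (hw.tendsto 0).mono_left nhdsWithin_le_nhds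

lemma continuous_vec {a b c d e f : ℝ → ℝ} (ha : Continuous a) (hb : Continuous b)
    (hc : Continuous c) (hd : Continuous d) (he : Continuous e) (hf : Continuous f) :
    Continuous (fun ε => (![a ε, b ε, c ε, d ε, e ε, f ε] : V)) := by
  apply continuous_pi
  intro i
  fin_cases i <;> assumption

lemma closure_step2 (v : {v : V // v ≠ 0}) (h : ∀ i, 0 ≤ L i v.1) (hp : plucker v.1 = 0)
    (hh : 0 < hf v.1) : π v ∈ closure (relInt Gr S0) := by
  have h' := (forall_L (fun t => 0 ≤ t) v.1).mp h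
  obtain ⟨⟨a0, a1, a2, a3, a4, a5⟩, -⟩ := h'
  obtain ⟨w, hw, hwpos, hwp⟩ : ∃ w : ℝ → V, Tendsto w (𝓝[>] 0) (𝓝 v.1) ∧
      (∀ᶠ ε in 𝓝[>] (0 : ℝ), 0 < w ε 0 ∧ 0 < w ε 1 ∧ 0 < w ε 2 ∧ 0 < w ε 3 ∧ 0 < w ε 4 ∧
        0 < w ε 5) ∧ ∀ᶠ ε in 𝓝[>] (0 : ℝ), plucker (w ε) = 0 := by
    have hpos : ∀ᶠ ε in 𝓝[>] (0 : ℝ), (0 : ℝ) < ε := eventually_mem_nhdsWithin
    unfold plucker at hp
    obtain ⟨R, hR⟩ : ∃ R : ℝ → ℝ, R = fun ε => (v.1 0 + ε) * (v.1 5 + ε) +
        (v.1 3 + ε) * (v.1 2 + ε) := ⟨_, rfl⟩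
    have hRc : Continuous R := by rw [hR]; fun_prop
    have hR0 : R 0 = v.1 1 * v.1 4 := by rw [hR]; linear_combination hp
    have hRpos : ∀ ε > 0, 0 < R ε := by
      intro ε hε
      rw [hR]
      positivity
    have c0 : Continuous fun ε : ℝ => v.1 0 + ε := by fun_prop
    have c2 : Continuous fun ε : ℝ => v.1 2 + ε := by fun_prop
    have c3 : Continuous fun ε : ℝ => v.1 3 + ε := by fun_prop
    have c5 : Continuous fun ε : ℝ => v.1 5 + ε := by fun_prop
    rcases a1.lt_or_eq with b1 | b1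
    · refine ⟨fun ε => ![v.1 0 + ε, v.1 1, v.1 2 + ε, v.1 3 + ε, R ε / v.1 1, v.1 5 + ε],
        tendsto_of_continuous _ (continuous_vec c0 continuous_const c2 c3 (hRc.div_const _) c5) _
          ?_, ?_, ?_⟩
      · funext i
        fin_cases i <;> simp [hR0]
        field_simp
      · filter_upwards [hpos] with ε hε
        have := hRpos ε hε
        refine ⟨?_, ?_, ?_, ?_, ?_, ?_⟩ <;> simp <;> positivity
      · filter_upwards [hpos] with ε hε
        simp only [plucker, Matrix.cons_val]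
        rw [hR]
        field_simp
        ring
    · rcases a4.lt_or_eq with b4 | b4
      · refine ⟨fun ε => ![v.1 0 + ε, R ε / v.1 4, v.1 2 + ε, v.1 3 + ε, v.1 4, v.1 5 + ε],
          tendsto_of_continuous _ (continuous_vec c0 (hRc.div_const _) c2 c3 continuous_const c5) _
            ?_, ?_, ?_⟩
        · funext i
          fin_cases i <;> simp [hR0]
          field_simp
        · filter_upwards [hpos] with ε hε
          have := hRpos ε hε
          refine ⟨?_, ?_, ?_, ?_, ?_, ?_⟩ <;> simp <;> positivity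
        · filter_upwards [hpos] with ε hε
          simp only [plucker, Matrix.cons_val]
          rw [hR]
          field_simp
          ring
      · refine ⟨fun ε => ![v.1 0 + ε, Real.sqrt (R ε), v.1 2 + ε, v.1 3 + ε, Real.sqrt (R ε),
          v.1 5 + ε], tendsto_of_continuous _ (continuous_vec c0 hRc.sqrt c2 c3 hRc.sqrt c5) _
            ?_, ?_, ?_⟩
        · rw [← b1, zero_mul] at hR0
          funext i
          fin_cases i <;> simp [hR0, ← b1, ← b4]
        · filter_upwards [hpos] with ε hε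
          have := hRpos ε hε
          have h2 := Real.sqrt_pos.mpr this
          refine ⟨?_, ?_, ?_, ?_, ?_, ?_⟩ <;> simp <;> positivity
        · filter_upwards [hpos] with ε hε
          have h2 := Real.mul_self_sqrt (hRpos ε hε).le
          simp only [plucker, Matrix.cons_val]
          rw [h2, hR]
          ring
  refine closure_of_path v w hw _ ?_
  have h1 : ∀ᶠ ε in 𝓝[>] (0 : ℝ), 0 < hf (w ε) := by
    have h2 : Continuous hf := LinearMap.continuous_of_finiteDimensional _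
    exact (h2.tendsto v.1).comp hw |>.eventually (isOpen_Ioi.mem_nhds hh)
  filter_upwards [hwpos, hwp, h1] with ε e1 e2 e3 hu
  apply strict_mem ⟨w ε, hu⟩ _ e2
  rw [forall_L (fun t => 0 < t)]
  exact ⟨e1, e3⟩

lemma closure_eq : closure (relInt Gr S0) = S0 := by
  apply Set.Subset.antisymm
  · exact closure_minimal (relInt_subset _ _) S0_closed
  · intro x hx
    obtain ⟨v, rfl, hv⟩ := normalize hx.1
    have hp : plucker v.1 = 0 := (mem_Gr v).mp hx.2
    have hne := ne_of_mem v.1 v.2 hv hp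
    have h' := (forall_L (fun t => 0 ≤ t) v.1).mp hv
    obtain ⟨⟨a0, a1, a2, a3, a4, a5⟩, a6⟩ := h'
    -- first move with the torus
    obtain ⟨w, hw, hwpos, hwp⟩ : ∃ w : ℝ → V, Tendsto w (𝓝[>] 0) (𝓝 v.1) ∧
        (∀ᶠ ε in 𝓝[>] (0 : ℝ), (∀ i, 0 ≤ L i (w ε)) ∧ 0 < hf (w ε)) ∧
        ∀ᶠ ε in 𝓝[>] (0 : ℝ), plucker (w ε) = 0 := by
      have hpos : ∀ᶠ ε in 𝓝[>] (0 : ℝ), (0 : ℝ) < ε := eventually_mem_nhdsWithin
      unfold plucker at hp
      rw [hf_apply] at a6
      have hE : ∀ ε : ℝ, 0 < ε → 1 < Real.exp ε ∧ 0 < Real.exp (-ε) ∧ Real.exp (-ε) < 1 ∧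
          Real.exp ε * Real.exp (-ε) = 1 := by
        intro ε hε
        refine ⟨Real.one_lt_exp_iff.mpr hε, Real.exp_pos _, ?_, ?_⟩
        · rw [Real.exp_lt_one_iff]; linarith
        · rw [← Real.exp_add]; simp
      rcases lt_or_gt_of_ne hne with hlt | hlt
      · refine ⟨fun ε => ![v.1 0 * Real.exp (-ε), v.1 1, v.1 2, v.1 3, v.1 4,
          v.1 5 * Real.exp ε], tendsto_of_continuous _ (continuous_vec (by fun_prop)
            continuous_const continuous_const continuous_const continuous_const (by fun_prop)) _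
            ?_, ?_, ?_⟩
        · funext i
          fin_cases i <;> simp
        · filter_upwards [hpos] with ε hε
          obtain ⟨e1, e2, e3, e4⟩ := hE ε hε
          have hh : 0 < hf ![v.1 0 * Real.exp (-ε), v.1 1, v.1 2, v.1 3, v.1 4,
              v.1 5 * Real.exp ε] := by
            rw [hf_apply]
            simp only [Matrix.cons_val]
            have h1 : 0 < (Real.exp ε - 1) * (v.1 5 - v.1 0 * Real.exp (-ε)) := by
              apply mul_pos (by linarith)
              nlinarith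
            nlinarith
          refine ⟨?_, hh⟩
          rw [forall_L (fun t => 0 ≤ t)]
          refine ⟨⟨?_, ?_, ?_, ?_, ?_, ?_⟩, hh.le⟩ <;> simp <;> positivity
        · filter_upwards [hpos] with ε hε
          obtain ⟨e1, e2, e3, e4⟩ := hE ε hε
          simp only [plucker, Matrix.cons_val]
          linear_combination hp + v.1 0 * v.1 5 * e4
      · refine ⟨fun ε => ![v.1 0 * Real.exp ε, v.1 1, v.1 2, v.1 3, v.1 4,
          v.1 5 * Real.exp (-ε)], tendsto_of_continuous _ (continuous_vec (by fun_prop)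
            continuous_const continuous_const continuous_const continuous_const (by fun_prop)) _
            ?_, ?_, ?_⟩
        · funext i
          fin_cases i <;> simp
        · filter_upwards [hpos] with ε hε
          obtain ⟨e1, e2, e3, e4⟩ := hE ε hε
          have hh : 0 < hf ![v.1 0 * Real.exp ε, v.1 1, v.1 2, v.1 3, v.1 4,
              v.1 5 * Real.exp (-ε)] := by
            rw [hf_apply]
            simp only [Matrix.cons_val]
            have h1 : 0 < (Real.exp ε - 1) * (v.1 0 - v.1 5 * Real.exp (-ε)) := by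
              apply mul_pos (by linarith)
              nlinarith
            nlinarith
          refine ⟨?_, hh⟩
          rw [forall_L (fun t => 0 ≤ t)]
          refine ⟨⟨?_, ?_, ?_, ?_, ?_, ?_⟩, hh.le⟩ <;> simp <;> positivity
        · filter_upwards [hpos] with ε hε
          obtain ⟨e1, e2, e3, e4⟩ := hE ε hε
          simp only [plucker, Matrix.cons_val]
          linear_combination hp + v.1 0 * v.1 5 * e4
    have key : π v ∈ closure (closure (relInt Gr S0)) := by
      refine closure_of_path v w hw _ ?_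
      filter_upwards [hwpos, hwp] with ε e1 e2 hu
      exact closure_step2 ⟨w ε, hu⟩ e1.1 e2 e1.2
    rwa [closure_closure] at key

/-! ### The boundary -/

/-- the position of a facet hyperplane among all seven hyperplanes -/
def idx : Fin 4 ⊕ Fin 1 → Fin 6 ⊕ Fin 1 := Sum.map ![0, 3, 2, 5] id

/-- the linear forms of the facets -/
noncomputable def FF : Fin 4 ⊕ Fin 1 → V →ₗ[ℝ] ℝ :=
  Sum.elim (fun k => coord (![0, 3, 2, 5] k)) (fun _ => hf)

lemma FF_eq (i : Fin 4 ⊕ Fin 1) : FF i = L (idx i) := by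
  rcases i with i | i <;> rfl

lemma idx_injective : Function.Injective idx := by
  decide

/-- the components of the algebraic boundary -/
noncomputable def Cmp (i : Fin 4 ⊕ Fin 1) : Set P5 := Gr ∩ hyperplane (FF i)

lemma mem_Cmp (i : Fin 4 ⊕ Fin 1) (v : {v : V // v ≠ 0}) :
    π v ∈ Cmp i ↔ plucker v.1 = 0 ∧ L (idx i) v.1 = 0 := by
  rw [Cmp, Set.mem_inter_iff, mem_Gr, mem_hyperplane, FF_eq]

/-- strict points of the `i`-th facet -/
def Strict (i : Fin 4 ⊕ Fin 1) (v : V) : Prop :=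
  plucker v = 0 ∧ L (idx i) v = 0 ∧ ∀ j, j ≠ idx i → 0 < L j v

lemma boundary_subset : S0 \ relInt Gr S0 ⊆ ⋃ i, Cmp i := by
  rintro x ⟨hx, hx2⟩
  obtain ⟨v, rfl, hv⟩ := normalize hx.1
  have hp : plucker v.1 = 0 := (mem_Gr v).mp hx.2
  by_contra hne
  apply hx2
  have hne' : ∀ i, L (idx i) v.1 ≠ 0 := by
    intro i h0
    apply hne
    rw [Set.mem_iUnion]
    exact ⟨i, (mem_Cmp i v).mpr ⟨hp, h0⟩⟩
  have e0 : 0 < v.1 0 := lt_of_le_of_ne (hv (Sum.inl 0)) (Ne.symm (hne' (Sum.inl 0)))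
  have e3 : 0 < v.1 3 := lt_of_le_of_ne (hv (Sum.inl 3)) (Ne.symm (hne' (Sum.inl 1)))
  have e2 : 0 < v.1 2 := lt_of_le_of_ne (hv (Sum.inl 2)) (Ne.symm (hne' (Sum.inl 2)))
  have e5 : 0 < v.1 5 := lt_of_le_of_ne (hv (Sum.inl 5)) (Ne.symm (hne' (Sum.inl 3)))
  have e6 : 0 < hf v.1 := lt_of_le_of_ne (hv (Sum.inr 0)) (Ne.symm (hne' (Sum.inr 0)))
  have h1 : 0 ≤ v.1 1 := hv (Sum.inl 1)
  have h4 : 0 ≤ v.1 4 := hv (Sum.inl 4)
  have hprod : 0 < v.1 1 * v.1 4 := by
    unfold plucker at hp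
    have : v.1 1 * v.1 4 = v.1 0 * v.1 5 + v.1 3 * v.1 2 := by linear_combination -hp
    rw [this]; positivity
  have e1 : 0 < v.1 1 := by
    rcases h1.lt_or_eq with h | h
    · exact h
    · rw [← h, zero_mul] at hprod; exact absurd hprod (lt_irrefl _)
  have e4 : 0 < v.1 4 := by
    rcases h4.lt_or_eq with h | h
    · exact h
    · rw [← h, mul_zero] at hprod; exact absurd hprod (lt_irrefl _)
  apply strict_mem v _ hp
  rw [forall_L (fun t => 0 < t)]
  exact ⟨⟨e0, e1, e2, e3, e4, e5⟩, e6⟩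

lemma Strict.nonneg {i : Fin 4 ⊕ Fin 1} {v : V} (h : Strict i v) (j) : 0 ≤ L j v := by
  by_cases hj : j = idx i
  · rw [hj, h.2.1]
  · exact (h.2.2 j hj).le

lemma Strict.ne_zero {i : Fin 4 ⊕ Fin 1} {v : V} (h : Strict i v) : v ≠ 0 := by
  rintro rfl
  have hex : ∀ i, ∃ j, j ≠ idx i := by decide
  obtain ⟨j, hj⟩ := hex i
  have := h.2.2 j hj
  rw [map_zero] at this
  exact lt_irrefl _ this

/-- strict points of a facet are not interior -/
lemma Strict.not_relInt {i : Fin 4 ⊕ Fin 1} (v : {v : V // v ≠ 0}) (h : Strict i v.1) :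
    π v ∉ relInt Gr S0 := by
  obtain ⟨w, hw, hwp, j, k, hneg⟩ : ∃ w : ℝ → V, Tendsto w (𝓝[>] 0) (𝓝 v.1) ∧
      (∀ ε > (0 : ℝ), plucker (w ε) = 0) ∧ ∃ j k, ∀ ε > (0 : ℝ), L j (w ε) * L k (w ε) < 0 := by
    obtain ⟨h1, h2, h3⟩ := h
    unfold plucker at h1
    rcases i with i | i
    · fin_cases i
      · -- p12 = 0
        have h2' : v.1 0 = 0 := h2
        have p1 : 0 < v.1 1 := h3 (Sum.inl 1) (by decide)
        have p4 : 0 < v.1 4 := h3 (Sum.inl 4) (by decide)
        have p5 : 0 < v.1 5 := h3 (Sum.inl 5) (by decide)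
        refine ⟨fun ε => ![-ε, (-ε * v.1 5 + v.1 3 * v.1 2) / v.1 4, v.1 2, v.1 3, v.1 4, v.1 5],
          tendsto_of_continuous _ (continuous_vec (by fun_prop) (by fun_prop)
            continuous_const continuous_const continuous_const continuous_const) _ ?_, ?_,
          Sum.inl 0, Sum.inl 5, ?_⟩
        · rw [h2'] at h1
          funext i
          fin_cases i <;> simp [h2']
          rw [div_eq_iff p4.ne']
          linear_combination h1
        · intro ε hε
          simp only [plucker, Matrix.cons_val]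
          field_simp
          ring
        · intro ε hε
          change -ε * v.1 5 < 0
          nlinarith [mul_pos hε p5]
      · -- p14 = 0
        have h2' : v.1 3 = 0 := h2
        have p4 : 0 < v.1 4 := h3 (Sum.inl 4) (by decide)
        have p5 : 0 < v.1 5 := h3 (Sum.inl 5) (by decide)
        refine ⟨fun ε => ![v.1 0, (v.1 0 * v.1 5 + -ε * v.1 2) / v.1 4, v.1 2, -ε, v.1 4, v.1 5],
          tendsto_of_continuous _ (continuous_vec (by fun_prop) (by fun_prop)
            continuous_const (by fun_prop) continuous_const continuous_const) _ ?_, ?_,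
          Sum.inl 3, Sum.inl 5, ?_⟩
        · rw [h2'] at h1
          funext i
          fin_cases i <;> simp [h2']
          rw [div_eq_iff p4.ne']
          linear_combination h1
        · intro ε hε
          simp only [plucker, Matrix.cons_val]
          field_simp
          ring
        · intro ε hε
          change -ε * v.1 5 < 0
          nlinarith [mul_pos hε p5]
      · -- p23 = 0
        have h2' : v.1 2 = 0 := h2
        have p4 : 0 < v.1 4 := h3 (Sum.inl 4) (by decide)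
        have p5 : 0 < v.1 5 := h3 (Sum.inl 5) (by decide)
        refine ⟨fun ε => ![v.1 0, (v.1 0 * v.1 5 + v.1 3 * -ε) / v.1 4, -ε, v.1 3, v.1 4, v.1 5],
          tendsto_of_continuous _ (continuous_vec (by fun_prop) (by fun_prop)
            (by fun_prop) (by fun_prop) continuous_const continuous_const) _ ?_, ?_,
          Sum.inl 2, Sum.inl 5, ?_⟩
        · rw [h2'] at h1
          funext i
          fin_cases i <;> simp [h2']
          rw [div_eq_iff p4.ne']
          linear_combination h1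
        · intro ε hε
          simp only [plucker, Matrix.cons_val]
          field_simp
          ring
        · intro ε hε
          change -ε * v.1 5 < 0
          nlinarith [mul_pos hε p5]
      · -- p34 = 0
        have h2' : v.1 5 = 0 := h2
        have p4 : 0 < v.1 4 := h3 (Sum.inl 4) (by decide)
        have p0 : 0 < v.1 0 := h3 (Sum.inl 0) (by decide)
        refine ⟨fun ε => ![v.1 0, (v.1 0 * -ε + v.1 3 * v.1 2) / v.1 4, v.1 2, v.1 3, v.1 4, -ε],
          tendsto_of_continuous _ (continuous_vec (by fun_prop) (by fun_prop)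
            (by fun_prop) (by fun_prop) continuous_const (by fun_prop)) _ ?_, ?_,
          Sum.inl 5, Sum.inl 0, ?_⟩
        · rw [h2'] at h1
          funext i
          fin_cases i <;> simp [h2']
          rw [div_eq_iff p4.ne']
          linear_combination h1
        · intro ε hε
          simp only [plucker, Matrix.cons_val]
          field_simp
          ring
        · intro ε hε
          change -ε * v.1 0 < 0
          nlinarith [mul_pos hε p0]
    · -- h = 0
      have h2' : hf v.1 = 0 := h2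
      have hi : idx (Sum.inr i) = Sum.inr 0 := by
        rw [Subsingleton.elim i 0]; rfl
      rw [hi] at h3
      have p0 : 0 < v.1 0 := h3 (Sum.inl 0) (by decide)
      have p2 : 0 < v.1 2 := h3 (Sum.inl 2) (by decide)
      have p4 : 0 < v.1 4 := h3 (Sum.inl 4) (by decide)
      refine ⟨fun ε => ![v.1 0, v.1 1 + ε * v.1 2 / v.1 4, v.1 2, v.1 3 + ε, v.1 4, v.1 5],
        tendsto_of_continuous _ (continuous_vec (by fun_prop) (by fun_prop)
          (by fun_prop) (by fun_prop) continuous_const (by fun_prop)) _ ?_, ?_,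
        Sum.inr 0, Sum.inl 0, ?_⟩
      · funext i
        fin_cases i <;> simp
      · intro ε hε
        simp only [plucker, Matrix.cons_val]
        field_simp
        linear_combination h1
      · intro ε hε
        change hf _ * v.1 0 < 0
        rw [hf_apply] at h2' ⊢
        simp only [Matrix.cons_val]
        have h5 : 0 < ε * v.1 2 / v.1 4 := by positivity
        apply mul_neg_of_neg_of_pos _ p0
        linarith
  refine not_relInt_of_path _ _ v w hw ?_
  intro ε hε hu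
  refine ⟨(mem_Gr _).mpr (hwp ε hε), ?_⟩
  rw [mem_S0]
  rintro ⟨h1, -⟩
  exact absurd (h1 j k) (not_le.mpr (hneg ε hε))

lemma Strict.mem_boundary {i : Fin 4 ⊕ Fin 1} (v : {v : V // v ≠ 0}) (h : Strict i v.1) :
    π v ∈ S0 \ relInt Gr S0 :=
  ⟨S0_of_nonneg v h.nonneg h.1, Strict.not_relInt v h⟩

lemma Strict.mem_facet {i : Fin 4 ⊕ Fin 1} (v : {v : V // v ≠ 0}) (h : Strict i v.1) :
    π v ∈ facet (Cmp i) S0 := by
  have h0 : π v ∈ relInt (Cmp i) (Cmp i ∩ S0) := by
    rw [mem_relInt]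
    refine ⟨(mem_Cmp i v).mpr ⟨h.1, h.2.1⟩, ?_⟩
    have h1 : ∀ᶠ u in 𝓝 v.1, ∀ j, j ≠ idx i → 0 < L j u := by
      rw [eventually_all]
      intro j
      by_cases hj : j = idx i
      · filter_upwards with u hne
        exact absurd hj hne
      · filter_upwards [(continuous_L j).continuousAt.eventually_mem
          (isOpen_Ioi.mem_nhds (h.2.2 j hj))] with u hu _
        exact hu
    filter_upwards [h1] with u hu hu0 hC
    refine ⟨hC, ?_⟩
    rw [mem_Cmp] at hC
    apply S0_of_nonneg _ _ hC.1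
    intro j
    by_cases hj : j = idx i
    · rw [hj, hC.2]
    · exact (hu j hj).le
  exact ⟨(mem_Cmp i v).mpr ⟨h.1, h.2.1⟩, subset_closure h0⟩

/-! ### Parametrisations -/

lemma rank_one (A B C D : ℝ) (h : A * D = B * C) :
    ∃ r1 r2 s1 s2 : ℝ, A = r1 * s1 ∧ B = r1 * s2 ∧ C = r2 * s1 ∧ D = r2 * s2 := by
  by_cases hA : A = 0
  · rw [hA, zero_mul] at h
    rcases mul_eq_zero.mp h.symm with hB | hC
    · exact ⟨0, 1, C, D, by simp [hA], by simp [hB], by simp, by simp⟩
    · exact ⟨B, D, 0, 1, by simp [hA], by simp, by simp [hC], by simp⟩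
  · refine ⟨A, C, 1, B / A, by simp, by field_simp, by simp, ?_⟩
    field_simp
    linear_combination h

/-- the polynomial parametrisations of the components -/
noncomputable def Ψ : Fin 4 ⊕ Fin 1 → Fin 6 → MvPolynomial (Fin 5) ℝ
  | Sum.inl 0 => ![0, X 0 * X 2, X 1 * X 2, X 0 * X 3, X 1 * X 3, X 4]
  | Sum.inl 1 => ![X 0 * X 2, X 0 * X 3, X 4, 0, X 1 * X 2, X 1 * X 3]
  | Sum.inl 2 => ![X 0 * X 2, X 0 * X 3, 0, X 4, X 1 * X 2, X 1 * X 3]
  | Sum.inl 3 => ![X 4, X 0 * X 2, X 1 * X 2, X 0 * X 3, X 1 * X 3, 0]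
  | Sum.inr _ =>
    let α : MvPolynomial (Fin 5) ℝ := X 0 * X 2
    let β : MvPolynomial (Fin 5) ℝ := X 1 * X 3
    let γ : MvPolynomial (Fin 5) ℝ := X 0 * X 3
    let δ : MvPolynomial (Fin 5) ℝ := X 1 * X 2
    let e : MvPolynomial (Fin 5) ℝ := X 4
    let s : MvPolynomial (Fin 5) ℝ := C (1 / 3) * (2 * (β - α) - 5 * e)
    let l : MvPolynomial (Fin 5) ℝ := C (1 / 4) * (5 * s + 3 * e)
    let v : MvPolynomial (Fin 5) ℝ := C (1 / 2) * (α + β)
    let t : MvPolynomial (Fin 5) ℝ := C (1 / 2) * (γ + δ)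
    let t' : MvPolynomial (Fin 5) ℝ := C (1 / 2) * (δ - γ)
    ![C (1 / 2) * (l + v), C (1 / 2) * (s + t), C (1 / 2) * (e - t'), C (1 / 2) * (e + t'),
      C (1 / 2) * (s - t), C (1 / 2) * (l - v)]

/-- the parametrisations as maps -/
noncomputable def ψ (i : Fin 4 ⊕ Fin 1) (z : Fin 5 → ℝ) : V := fun j => eval z (Ψ i j)

lemma ψ_continuous (i : Fin 4 ⊕ Fin 1) : Continuous (ψ i) := by
  apply continuous_pi
  intro j
  exact MvPolynomial.continuous_eval _

lemma ψ_plucker (i : Fin 4 ⊕ Fin 1) (z : Fin 5 → ℝ) : plucker (ψ i z) = 0 := by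
  rcases i with i | i
  · fin_cases i <;> simp [ψ, Ψ, plucker] <;> ring
  · simp [ψ, Ψ, plucker]; ring

lemma ψ_L (i : Fin 4 ⊕ Fin 1) (z : Fin 5 → ℝ) : L (idx i) (ψ i z) = 0 := by
  rcases i with i | i
  · fin_cases i <;> simp [ψ, Ψ, idx, L, coord]
  · simp [ψ, Ψ, idx, L, hf_apply]; ring

lemma ψ_surj (i : Fin 4 ⊕ Fin 1) (v : V) (h1 : plucker v = 0) (h2 : L (idx i) v = 0) :
    ∃ z, ψ i z = v := by
  unfold plucker at h1
  rcases i with i | i
  · fin_cases i
    · have h2' : v 0 = 0 := h2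
      rw [h2'] at h1
      obtain ⟨r1, r2, s1, s2, e1, e2, e3, e4⟩ := rank_one (v 1) (v 3) (v 2) (v 4)
        (by linear_combination -h1)
      refine ⟨![r1, r2, s1, s2, v 5], ?_⟩
      funext j
      fin_cases j <;> simp [ψ, Ψ, h2', e1, e2, e3, e4]
    · have h2' : v 3 = 0 := h2
      rw [h2'] at h1
      obtain ⟨r1, r2, s1, s2, e1, e2, e3, e4⟩ := rank_one (v 0) (v 1) (v 4) (v 5)
        (by linear_combination h1)
      refine ⟨![r1, r2, s1, s2, v 2], ?_⟩
      funext j
      fin_cases j <;> simp [ψ, Ψ, h2', e1, e2, e3, e4]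
    · have h2' : v 2 = 0 := h2
      rw [h2'] at h1
      obtain ⟨r1, r2, s1, s2, e1, e2, e3, e4⟩ := rank_one (v 0) (v 1) (v 4) (v 5)
        (by linear_combination h1)
      refine ⟨![r1, r2, s1, s2, v 3], ?_⟩
      funext j
      fin_cases j <;> simp [ψ, Ψ, h2', e1, e2, e3, e4]
    · have h2' : v 5 = 0 := h2
      rw [h2'] at h1
      obtain ⟨r1, r2, s1, s2, e1, e2, e3, e4⟩ := rank_one (v 1) (v 3) (v 2) (v 4)
        (by linear_combination -h1)
      refine ⟨![r1, r2, s1, s2, v 0], ?_⟩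
      funext j
      fin_cases j <;> simp [ψ, Ψ, h2', e1, e2, e3, e4]
  · have h2' : hf v = 0 := h2
    rw [hf_apply] at h2'
    obtain ⟨w, hw⟩ : ∃ w, w = (3 * (v 1 + v 4) + 5 * (v 3 + v 2)) / 4 := ⟨_, rfl⟩
    obtain ⟨u, hu⟩ : ∃ u, u = v 0 - v 5 := ⟨_, rfl⟩
    obtain ⟨t, ht⟩ : ∃ t, t = v 1 - v 4 := ⟨_, rfl⟩
    obtain ⟨t', ht'⟩ : ∃ t', t' = v 3 - v 2 := ⟨_, rfl⟩
    have hl : v 0 + v 5 = (5 * (v 1 + v 4) + 3 * (v 3 + v 2)) / 4 := by linarith
    obtain ⟨r1, r2, s1, s2, e1, e2, e3, e4⟩ := rank_one (u - w) (t - t') (t + t') (u + w) (by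
      have h3 : (v 0 + v 5) ^ 2 = ((5 * (v 1 + v 4) + 3 * (v 3 + v 2)) / 4) ^ 2 := by rw [hl]
      rw [hw, hu, ht, ht']
      linear_combination h3 - 4 * h1)
    refine ⟨![r1, r2, s1, s2, v 3 + v 2], ?_⟩
    funext j
    fin_cases j
    · simp [ψ, Ψ, ← e1, ← e2, ← e3, ← e4]; rw [hw, hu]; linarith
    · simp [ψ, Ψ, ← e1, ← e2, ← e3, ← e4]; rw [hw, ht]; linarith
    · simp [ψ, Ψ, ← e1, ← e2, ← e3, ← e4]; rw [ht']; linarith
    · simp [ψ, Ψ, ← e1, ← e2, ← e3, ← e4]; rw [ht']; linarith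
    · simp [ψ, Ψ, ← e1, ← e2, ← e3, ← e4]; rw [hw, ht]; linarith
    · simp [ψ, Ψ, ← e1, ← e2, ← e3, ← e4]; rw [hw, hu]; linarith

/-- base points -/
noncomputable def z0 : Fin 4 ⊕ Fin 1 → Fin 5 → ℝ
  | Sum.inl 0 => ![1, 1, 1, 1, 5]
  | Sum.inl 1 => ![1, 1 / 10, 1, 1 / 10, 1 / 2]
  | Sum.inl 2 => ![1, 1 / 10, 1, 1 / 10, 1 / 2]
  | Sum.inl 3 => ![1, 1, 1, 1, 5]
  | Sum.inr _ => ![0, 1, 0, 11 / 2, 1]

lemma ψ_z0 (i : Fin 4 ⊕ Fin 1) : Strict i (ψ i (z0 i)) := by
  refine ⟨ψ_plucker _ _, ψ_L _ _, ?_⟩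
  rcases i with i | i
  · fin_cases i
    all_goals
      rintro (j | j) hj
      · fin_cases j
        all_goals first
          | exact absurd rfl hj
          | (simp [ψ, Ψ, z0, L, coord])
      · simp [ψ, Ψ, z0, L, hf_apply] <;> norm_num
  · rintro (j | j) hj
    · fin_cases j
      all_goals
        simp [ψ, Ψ, z0, L, coord] <;> norm_num
    · exfalso
      apply hj
      rw [Subsingleton.elim i 0, Subsingleton.elim j 0]; rfl

lemma strict_open (i : Fin 4 ⊕ Fin 1) : ∀ᶠ z in 𝓝 (z0 i), Strict i (ψ i z) := by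
  have h1 : ∀ᶠ z in 𝓝 (z0 i), ∀ j, j ≠ idx i → 0 < L j (ψ i z) := by
    rw [eventually_all]
    intro j
    by_cases hj : j = idx i
    · filter_upwards with u hne
      exact absurd hj hne
    · filter_upwards [((continuous_L j).comp (ψ_continuous i)).continuousAt.eventually_mem
        (isOpen_Ioi.mem_nhds ((ψ_z0 i).2.2 j hj))] with u hu _
      exact hu
  filter_upwards [h1] with z hz
  exact ⟨ψ_plucker _ _, ψ_L _ _, hz⟩

/-- a polynomial which vanishes near a point vanishes identically -/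
lemma poly_zero (q : MvPolynomial (Fin 5) ℝ) (z : Fin 5 → ℝ) (h : ∀ᶠ u in 𝓝 z, eval u q = 0) :
    q = 0 := by
  obtain ⟨ε, hε, hb⟩ := Metric.eventually_nhds_iff_ball.mp h
  refine funext_set (fun i => Metric.ball (z i) ε) (fun i => ?_) (fun x hx => ?_)
  · rw [Real.ball_eq_Ioo]
    exact Set.Ioo_infinite (by linarith)
  · rw [map_zero]
    apply hb
    rw [ball_pi z hε]
    exact hx

/-! ### The Zariski topology -/

/-- composition of a polynomial with a parametrisation -/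
noncomputable def pull (i : Fin 4 ⊕ Fin 1) (f : MvPolynomial (Fin 6) ℝ) :
    MvPolynomial (Fin 5) ℝ := bind₁ (Ψ i) f

lemma eval_pull (i : Fin 4 ⊕ Fin 1) (f : MvPolynomial (Fin 6) ℝ) (z : Fin 5 → ℝ) :
    eval z (pull i f) = eval (ψ i z) f := by
  rw [pull, ← coe_aeval_eq_eval, ← coe_aeval_eq_eval]
  exact aeval_bind₁ _ _ _

/-- a homogeneous polynomial whose pullback vanishes is zero on the component -/
lemma vanish_of_pull (i : Fin 4 ⊕ Fin 1) {n : ℕ} {f : MvPolynomial (Fin 6) ℝ}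
    (hf : f.IsHomogeneous n) (h : pull i f = 0) (x : P5) (hx : x ∈ Cmp i) :
    eval x.rep f = 0 := by
  obtain ⟨v, rfl⟩ := π_surj x
  rw [mem_Cmp] at hx
  obtain ⟨z, hz⟩ := ψ_surj i v.1 hx.1 hx.2
  rw [eval_rep hf, ← hz, ← eval_pull, h, map_zero]

/-- a homogeneous polynomial vanishing on the component has zero pullback -/
lemma pull_zero (i : Fin 4 ⊕ Fin 1) {n : ℕ} {f : MvPolynomial (Fin 6) ℝ}
    (hf : f.IsHomogeneous n)
    (h : ∀ v : {v : V // v ≠ 0}, Strict i v.1 → eval (π v).rep f = 0) : pull i f = 0 := by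
  apply poly_zero _ (z0 i)
  filter_upwards [strict_open i] with z hz
  rw [eval_pull]
  exact (eval_rep hf ⟨ψ i z, hz.ne_zero⟩).mp (h ⟨ψ i z, hz.ne_zero⟩ hz)

/-- the Plücker polynomial -/
noncomputable def pluckerPoly : MvPolynomial (Fin 6) ℝ := X 0 * X 5 - X 1 * X 4 + X 3 * X 2

lemma pluckerPoly_homog : pluckerPoly.IsHomogeneous 2 := by
  have h : ∀ i j : Fin 6, (X i * X j : MvPolynomial (Fin 6) ℝ).IsHomogeneous 2 := fun i j =>
    (isHomogeneous_X ℝ i).mul (isHomogeneous_X ℝ j)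
  exact ((h 0 5).sub (h 1 4)).add (h 3 2)

lemma eval_pluckerPoly (v : V) : eval v pluckerPoly = plucker v := by
  simp [pluckerPoly, plucker]

/-- a linear form as a polynomial -/
noncomputable def linPoly (l : V →ₗ[ℝ] ℝ) : MvPolynomial (Fin 6) ℝ :=
  ∑ i, C (l (Pi.single i 1)) * X i

lemma linPoly_homog (l : V →ₗ[ℝ] ℝ) : (linPoly l).IsHomogeneous 1 := by
  apply IsHomogeneous.sum
  intro i _
  have := (isHomogeneous_C (Fin 6) (l (Pi.single i 1))).mul (isHomogeneous_X ℝ i)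
  rwa [zero_add] at this

lemma eval_linPoly (l : V →ₗ[ℝ] ℝ) (v : V) : eval v (linPoly l) = l v := by
  simp only [linPoly, map_sum, map_mul, eval_C, eval_X]
  conv_rhs => rw [← Finset.univ_sum_single v, map_sum]
  apply Finset.sum_congr rfl
  intro i _
  have : (Pi.single i (v i) : V) = v i • Pi.single i 1 := by
    rw [← Pi.single_smul]; simp
  rw [this, map_smul, smul_eq_mul, mul_comm]

lemma Cmp_closed (i : Fin 4 ⊕ Fin 1) : IsZariskiClosed (Cmp i) := by
  refine ⟨{pluckerPoly, linPoly (FF i)}, ?_, ?_⟩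
  · rintro f (rfl | hf)
    · exact ⟨2, pluckerPoly_homog⟩
    · rw [Set.mem_singleton_iff] at hf
      rw [hf]
      exact ⟨1, linPoly_homog _⟩
  · ext x
    simp only [Cmp, Gr, hyperplane, Set.mem_inter_iff, Set.mem_ofPred_eq, Set.mem_insert_iff,
      Set.mem_singleton_iff, forall_eq_or_imp, forall_eq, eval_pluckerPoly, eval_linPoly]

lemma Cmp_irred (i : Fin 4 ⊕ Fin 1) : IsIrred (Cmp i) := by
  refine ⟨Cmp_closed i, ?_, ?_⟩
  · have h := ψ_z0 i
    exact ⟨π ⟨_, h.ne_zero⟩, (mem_Cmp i _).mpr ⟨h.1, h.2.1⟩⟩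
  · rintro A B ⟨I, hI, rfl⟩ ⟨J, hJ, rfl⟩ hAB
    by_contra hne
    push Not at hne
    obtain ⟨h1, h2⟩ := hne
    rw [Set.not_subset] at h1 h2
    obtain ⟨x, hx, hx2⟩ := h1
    obtain ⟨y, hy, hy2⟩ := h2
    simp only [Set.mem_ofPred_eq, not_forall] at hx2 hy2
    obtain ⟨f, hf, hfx⟩ := hx2
    obtain ⟨g, hg, hgy⟩ := hy2
    obtain ⟨n, hfn⟩ := hI f hf
    obtain ⟨m, hgm⟩ := hJ g hg
    have h3 : pull i (f * g) = 0 := by
      apply pull_zero i (hfn.mul hgm)
      intro v hv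
      have h4 := hAB ((mem_Cmp i v).mpr ⟨hv.1, hv.2.1⟩)
      rw [map_mul]
      rcases h4 with h4 | h4
      · rw [h4 f hf, zero_mul]
      · rw [h4 g hg, mul_zero]
    have h4 : pull i f * pull i g = 0 := by
      rw [← h3]; simp [pull]
    rcases mul_eq_zero.mp h4 with h5 | h5
    · exact hfx (vanish_of_pull i hfn h5 x hx)
    · exact hgy (vanish_of_pull i hgm h5 y hy)

lemma zc_closed (T : Set P5) : IsZariskiClosed (zariskiClosure T) := by
  refine ⟨{f | (∃ n, f.IsHomogeneous n) ∧ ∀ x ∈ T, eval x.rep f = 0}, fun f hf => hf.1, ?_⟩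
  apply Set.Subset.antisymm
  · apply Set.sInter_subset_of_mem
    refine ⟨⟨_, fun f hf => hf.1, rfl⟩, ?_⟩
    intro x hx f hf
    exact hf.2 x hx
  · rintro x hx Z ⟨⟨J, hJ, rfl⟩, hTJ⟩ f hf
    exact hx f ⟨hJ f hf, fun y hy => hTJ hy f hf⟩

lemma union_closed {A B : Set P5} (hA : IsZariskiClosed A) (hB : IsZariskiClosed B) :
    IsZariskiClosed (A ∪ B) := by
  obtain ⟨I, hI, rfl⟩ := hA
  obtain ⟨J, hJ, rfl⟩ := hB
  refine ⟨{q | ∃ f ∈ I, ∃ g ∈ J, q = f * g}, ?_, ?_⟩
  · rintro q ⟨f, hf, g, hg, rfl⟩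
    obtain ⟨n, hn⟩ := hI f hf
    obtain ⟨m, hm⟩ := hJ g hg
    exact ⟨n + m, hn.mul hm⟩
  · ext x
    constructor
    · rintro (h | h) q ⟨f, hf, g, hg, rfl⟩
      · rw [map_mul, h f hf, zero_mul]
      · rw [map_mul, h g hg, mul_zero]
    · intro h
      by_contra hne
      rw [Set.mem_union] at hne
      push Not at hne
      obtain ⟨h1, h2⟩ := hne
      simp only [Set.mem_ofPred_eq, not_forall] at h1 h2
      obtain ⟨f, hf, hfx⟩ := h1
      obtain ⟨g, hg, hgx⟩ := h2
      have := h (f * g) ⟨f, hf, g, hg, rfl⟩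
      rw [map_mul] at this
      rcases mul_eq_zero.mp this with h5 | h5
      · exact hfx h5
      · exact hgx h5

lemma empty_closed : IsZariskiClosed (∅ : Set P5) := by
  refine ⟨{1}, ?_, ?_⟩
  · rintro f hf
    rw [Set.mem_singleton_iff] at hf
    rw [hf]
    exact ⟨0, isHomogeneous_one _ _⟩
  · ext x
    simp

lemma finset_union_closed (s : Finset (Fin 4 ⊕ Fin 1)) : IsZariskiClosed (⋃ i ∈ s, Cmp i) := by
  classical
  induction s using Finset.induction_on with
  | empty => simpa using empty_closed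
  | insert a s ha ih =>
    rw [Finset.set_biUnion_insert]
    exact union_closed (Cmp_closed a) ih

lemma irred_in_union (s : Finset (Fin 4 ⊕ Fin 1)) (D : Set P5) (hD : IsIrred D)
    (h : D ⊆ ⋃ i ∈ s, Cmp i) : ∃ i, D ⊆ Cmp i := by
  classical
  induction s using Finset.induction_on with
  | empty =>
    exfalso
    obtain ⟨x, hx⟩ := hD.2.1
    have := h hx
    simp at this
  | insert a s ha ih =>
    rw [Finset.set_biUnion_insert] at h
    rcases hD.2.2 _ _ (Cmp_closed a) (finset_union_closed s) h with h1 | h1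
    · exact ⟨a, h1⟩
    · exact ih h1

lemma algBoundary_eq : algBoundary S0 = ⋃ i, Cmp i := by
  apply Set.Subset.antisymm
  · apply Set.sInter_subset_of_mem
    refine ⟨?_, boundary_subset⟩
    have := finset_union_closed Finset.univ
    simpa using this
  · apply Set.iUnion_subset
    rintro i x hx Z ⟨⟨J, hJ, rfl⟩, hTJ⟩ f hf
    obtain ⟨n, hn⟩ := hJ f hf
    apply vanish_of_pull i hn _ x hx
    apply pull_zero i hn
    intro v hv
    exact hTJ (hv.mem_boundary v) f hf

lemma Cmp_subset {i j : Fin 4 ⊕ Fin 1} (v : {v : V // v ≠ 0}) (h : Strict i v.1)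
    (hj : π v ∈ Cmp j) : i = j := by
  by_contra hne
  rw [mem_Cmp] at hj
  have h1 : idx j ≠ idx i := fun h => hne (idx_injective h).symm
  have := h.2.2 _ h1
  rw [hj.2] at this
  exact lt_irrefl _ this

lemma components (D : Set P5) : IsComponent D (algBoundary S0) ↔ ∃ i, Cmp i = D := by
  rw [algBoundary_eq]
  constructor
  · rintro ⟨h1, h2, h3⟩
    obtain ⟨i, hi⟩ := irred_in_union Finset.univ D h1 (by simpa using h2)
    exact ⟨i, h3 _ (Cmp_irred i) (Set.subset_iUnion _ i) hi⟩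
  · rintro ⟨i, rfl⟩
    refine ⟨Cmp_irred i, Set.subset_iUnion _ i, ?_⟩
    intro C' h1 h2 h3
    obtain ⟨j, hj⟩ := irred_in_union Finset.univ C' h1 (by simpa using h2)
    have hs := ψ_z0 i
    have h4 : i = j := Cmp_subset ⟨_, hs.ne_zero⟩ hs
      (hj (h3 ((mem_Cmp i _).mpr ⟨hs.1, hs.2.1⟩)))
    subst h4
    exact Set.Subset.antisymm hj h3

/-! ### The polytope -/

/-- the sum of all coordinates -/
noncomputable def cs : V →ₗ[ℝ] ℝ :=
  coord 0 + coord 1 + coord 2 + coord 3 + coord 4 + coord 5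

lemma cs_apply (v : V) : cs v = v 0 + v 1 + v 2 + v 3 + v 4 + v 5 := by
  simp [cs, coord]

lemma cs_pos (v : V) (h0 : v ≠ 0) (h : ∀ i, 0 ≤ L i v) : 0 < cs v := by
  rw [forall_L (fun t => 0 ≤ t)] at h
  obtain ⟨⟨a0, a1, a2, a3, a4, a5⟩, -⟩ := h
  rw [cs_apply]
  by_contra hle
  apply h0
  funext i
  fin_cases i
  · change v 0 = 0; linarith
  · change v 1 = 0; linarith
  · change v 2 = 0; linarith
  · change v 3 = 0; linarith
  · change v 4 = 0; linarith
  · change v 5 = 0; linarith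

/-- scaled version of a point on the `i`-th facet -/
lemma facet_point (i : Fin 6 ⊕ Fin 1) (v : V) (h : L i v = 0) (h2 : ∀ j, j ≠ i → 0 < L j v) :
    ∃ v : V, cs v = 1 ∧ L i v = 0 ∧ ∀ j, j ≠ i → 0 < L j v := by
  have h0 : v ≠ 0 := by
    rintro rfl
    have hex : ∀ i : Fin 6 ⊕ Fin 1, ∃ j, j ≠ i := by decide
    obtain ⟨j, hj⟩ := hex i
    have := h2 j hj
    rw [map_zero] at this
    exact lt_irrefl _ this
  have hc : 0 < cs v := cs_pos v h0 (fun j => by
    by_cases hj : j = i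
    · rw [hj, h]
    · exact (h2 j hj).le)
  refine ⟨(cs v)⁻¹ • v, ?_, ?_, ?_⟩
  · rw [map_smul, smul_eq_mul, inv_mul_cancel₀ hc.ne']
  · rw [map_smul, h, smul_zero]
  · intro j hj
    rw [map_smul, smul_eq_mul]
    have := h2 j hj
    positivity

lemma simplePolytope : IsSimplePolytope L (region L) := by
  refine ⟨rfl, ⟨cs, ?_, ?_, ?_, ?_⟩, ?_⟩
  · apply (isCompact_Icc (a := (0 : V)) (b := 1)).isBounded.subset
    rintro v ⟨h1, h2⟩
    rw [forall_L (fun t => 0 ≤ t)] at h2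
    obtain ⟨⟨a0, a1, a2, a3, a4, a5⟩, -⟩ := h2
    rw [cs_apply] at h1
    constructor
    · intro i
      fin_cases i <;> assumption
    · intro i
      fin_cases i
      · change v 0 ≤ 1; linarith
      · change v 1 ≤ 1; linarith
      · change v 2 ≤ 1; linarith
      · change v 3 ≤ 1; linarith
      · change v 4 ≤ 1; linarith
      · change v 5 ≤ 1; linarith
  · ext x
    constructor
    · intro hx
      obtain ⟨v, rfl, hv⟩ := normalize hx
      have hc := cs_pos v.1 v.2 hv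
      refine ⟨(cs v.1)⁻¹ • v.1, smul_ne_zero (inv_ne_zero hc.ne') v.2, ?_, ?_, ?_⟩
      · rw [map_smul, smul_eq_mul, inv_mul_cancel₀ hc.ne']
      · intro i
        rw [map_smul, smul_eq_mul]
        exact mul_nonneg (inv_nonneg.mpr hc.le) (hv i)
      · exact (Projectivization.mk_eq_mk_iff' ℝ _ _ _ _).mpr ⟨cs v.1, by
          rw [smul_smul, mul_inv_cancel₀ hc.ne', one_smul]⟩
    · rintro ⟨v, hv, -, h2, rfl⟩
      exact (mem_region L ⟨v, hv⟩).mpr fun i j => mul_nonneg (h2 i) (h2 j)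
  · refine ⟨![20 / 44, 1 / 44, 1 / 44, 1 / 44, 1 / 44, 20 / 44], ?_, ?_⟩
    · rw [cs_apply]; simp only [Matrix.cons_val]; norm_num
    · rw [forall_L (fun t => 0 < t), hf_apply]
      simp only [Matrix.cons_val]
      norm_num
  · rintro (i | i)
    · fin_cases i
      · apply facet_point _ ![0, 1, 1, 1, 1, 20]
        · simp [L, coord]
        · rintro (j | j) hj
          · fin_cases j
            all_goals first
              | exact absurd rfl hj
              | (simp [L, coord])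
          · simp [L, hf_apply]; norm_num
      · apply facet_point _ ![20, 0, 1, 1, 1, 20]
        · simp [L, coord]
        · rintro (j | j) hj
          · fin_cases j
            all_goals first
              | exact absurd rfl hj
              | (simp [L, coord])
          · simp [L, hf_apply]; norm_num
      · apply facet_point _ ![20, 1, 0, 1, 1, 20]
        · simp [L, coord]
        · rintro (j | j) hj
          · fin_cases j
            all_goals first
              | exact absurd rfl hj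
              | (simp [L, coord])
          · simp [L, hf_apply]; norm_num
      · apply facet_point _ ![20, 1, 1, 0, 1, 20]
        · simp [L, coord]
        · rintro (j | j) hj
          · fin_cases j
            all_goals first
              | exact absurd rfl hj
              | (simp [L, coord])
          · simp [L, hf_apply]; norm_num
      · apply facet_point _ ![20, 1, 1, 1, 0, 20]
        · simp [L, coord]
        · rintro (j | j) hj
          · fin_cases j
            all_goals first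
              | exact absurd rfl hj
              | (simp [L, coord])
          · simp [L, hf_apply]; norm_num
      · apply facet_point _ ![20, 1, 1, 1, 1, 0]
        · simp [L, coord]
        · rintro (j | j) hj
          · fin_cases j
            all_goals first
              | exact absurd rfl hj
              | (simp [L, coord])
          · simp [L, hf_apply]; norm_num
    · apply facet_point _ ![2, 1, 1, 1, 1, 2]
      · simp [L, hf_apply]; norm_num
      · rintro (j | j) hj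
        · fin_cases j
          all_goals
            simp [L, coord]
        · exfalso
          apply hj
          rw [Subsingleton.elim i j]
  · intro s hs
    classical
    change LinearIndepOn ℝ L (s : Set (Fin 6 ⊕ Fin 1))
    rw [linearIndepOn_finset_iff]
    intro f hf0
    obtain ⟨g, hg⟩ : ∃ g : Fin 6 ⊕ Fin 1 → ℝ, g = fun i => if i ∈ s then f i else 0 := ⟨_, rfl⟩
    have hsum : ∑ i, g i • L i = 0 := by
      rw [← hf0, hg]
      simp only [ite_smul, zero_smul, Finset.sum_ite_mem, Finset.univ_inter]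
    obtain ⟨i0, hi0⟩ : ∃ i0, i0 ∉ s := by
      by_contra h
      push Not at h
      have : s = Finset.univ := Finset.eq_univ_iff_forall.mpr h
      rw [this] at hs
      simp at hs
    have hev : ∀ v : V, (∑ k : Fin 6, g (Sum.inl k) * v k) + g (Sum.inr 0) * hf v = 0 := by
      intro v
      have := congrArg (fun l : V →ₗ[ℝ] ℝ => l v) hsum
      simpa [L, coord, Fintype.sum_sum_type] using this
    have hk : ∀ k : Fin 6, g (Sum.inl k) + g (Sum.inr 0) * hf (Pi.single k 1) = 0 := by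
      intro k
      have := hev (Pi.single k 1)
      rw [Finset.sum_eq_single k] at this
      · rwa [Pi.single_eq_same, mul_one] at this
      · intro b _ hb
        rw [Pi.single_eq_of_ne hb, mul_zero]
      · intro h
        exact absurd (Finset.mem_univ k) h
    have hc : ∀ k : Fin 6, hf (Pi.single k 1) ≠ 0 := by
      intro k
      rw [hf_apply]
      fin_cases k <;> simp
    have hr : g (Sum.inr 0) = 0 := by
      rcases i0 with k | k
      · have h1 := hk k
        have h2 : g (Sum.inl k) = 0 := by rw [hg]; simp [hi0]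
        rw [h2, zero_add] at h1
        exact (mul_eq_zero.mp h1).resolve_right (hc k)
      · rw [Subsingleton.elim k 0] at hi0
        rw [hg]; simp [hi0]
    intro i hi
    have hgi : g i = f i := by rw [hg]; simp [hi]
    rw [← hgi]
    rcases i with k | k
    · have h1 := hk k
      rwa [hr, zero_mul, add_zero] at h1
    · rw [Subsingleton.elim k 0]; exact hr

/-! ### The result -/

lemma S0_positive : IsPositivePolytope 1 (fun _ => hf) S0 := by
  refine ⟨region L, simplePolytope, ?_, rfl, closure_eq, Cmp, components, ?_, ?_, ?_, ?_⟩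
  · intro x hx i j
    exact hx (Sum.inl i) (Sum.inl j)
  · intro i x hx
    exact hx.2
  · intro i j hij
    have hs := ψ_z0 i
    have h1 : π ⟨_, hs.ne_zero⟩ ∈ Cmp i := (mem_Cmp i _).mpr ⟨hs.1, hs.2.1⟩
    rw [hij] at h1
    exact Cmp_subset _ hs h1
  · intro i j hij
    have hs := ψ_z0 i
    have h1 : π ⟨_, hs.ne_zero⟩ ∈ facet (Cmp i) S0 := hs.mem_facet ⟨_, hs.ne_zero⟩
    have hij' : facet (Cmp i) S0 = facet (Cmp j) S0 := hij
    rw [hij'] at h1
    exact Cmp_subset _ hs h1.1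
  · intro i
    have hs := ψ_z0 i
    exact ⟨_, hs.mem_facet ⟨_, hs.ne_zero⟩⟩

/-- the open set `|p₁₂| > |p₃₄|` -/
def U1 : Set P5 := {x | x.rep 5 ^ 2 < x.rep 0 ^ 2}

/-- the open set `|p₁₂| < |p₃₄|` -/
def U2 : Set P5 := {x | x.rep 0 ^ 2 < x.rep 5 ^ 2}

lemma mem_U1 (v : {v : V // v ≠ 0}) : π v ∈ U1 ↔ v.1 5 ^ 2 < v.1 0 ^ 2 := by
  obtain ⟨a, ha, h⟩ := rep_eq v
  change (π v).rep 5 ^ 2 < (π v).rep 0 ^ 2 ↔ _
  have ha2 : 0 < a ^ 2 := by positivity
  rw [h, Pi.smul_apply, Pi.smul_apply, smul_eq_mul, smul_eq_mul, mul_pow, mul_pow]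
  exact mul_lt_mul_iff_right₀ ha2

lemma mem_U2 (v : {v : V // v ≠ 0}) : π v ∈ U2 ↔ v.1 0 ^ 2 < v.1 5 ^ 2 := by
  obtain ⟨a, ha, h⟩ := rep_eq v
  change (π v).rep 0 ^ 2 < (π v).rep 5 ^ 2 ↔ _
  have ha2 : 0 < a ^ 2 := by positivity
  rw [h, Pi.smul_apply, Pi.smul_apply, smul_eq_mul, smul_eq_mul, mul_pow, mul_pow]
  exact mul_lt_mul_iff_right₀ ha2

lemma U1_open : IsOpen U1 := by
  rw [← π_open.isQuotientMap.isOpen_preimage]
  have : π ⁻¹' U1 = {v | v.1 5 ^ 2 < v.1 0 ^ 2} := by ext v; exact mem_U1 v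
  rw [this]
  have h : ∀ i, Continuous fun v : {v : V // v ≠ 0} => v.1 i ^ 2 := fun i =>
    ((continuous_apply i).comp continuous_subtype_val).pow 2
  exact isOpen_lt (h 5) (h 0)

lemma U2_open : IsOpen U2 := by
  rw [← π_open.isQuotientMap.isOpen_preimage]
  have : π ⁻¹' U2 = {v | v.1 0 ^ 2 < v.1 5 ^ 2} := by ext v; exact mem_U2 v
  rw [this]
  have h : ∀ i, Continuous fun v : {v : V // v ≠ 0} => v.1 i ^ 2 := fun i =>
    ((continuous_apply i).comp continuous_subtype_val).pow 2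
  exact isOpen_lt (h 0) (h 5)

lemma single_ne (i : Fin 6) : (Pi.single i 1 : V) ≠ 0 := by
  intro h
  have := congrFun h i
  simp at this

lemma single_mem (i : Fin 6) (hi : i = 0 ∨ i = 5) : π ⟨Pi.single i 1, single_ne i⟩ ∈ S0 := by
  apply S0_of_nonneg
  · rw [forall_L (fun t => 0 ≤ t), hf_apply]
    rcases hi with rfl | rfl <;> simp
  · rcases hi with rfl | rfl <;> simp [plucker]

lemma S0_disconnected : ¬ IsPreconnected S0 := by
  intro h
  have hcov : S0 ⊆ U1 ∪ U2 := by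
    intro x hx
    obtain ⟨v, rfl, hv⟩ := normalize hx.1
    have hp : plucker v.1 = 0 := (mem_Gr v).mp hx.2
    have hne := ne_of_mem v.1 v.2 hv hp
    have h' := (forall_L (fun t => 0 ≤ t) v.1).mp hv
    obtain ⟨⟨a0, a1, a2, a3, a4, a5⟩, a6⟩ := h'
    rcases lt_or_gt_of_ne hne with hlt | hlt
    · right
      rw [mem_U2]
      exact pow_lt_pow_left₀ hlt a0 two_ne_zero
    · left
      rw [mem_U1]
      exact pow_lt_pow_left₀ hlt a5 two_ne_zero
  obtain ⟨x, -, h1, h2⟩ := h U1 U2 U1_open U2_open hcov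
    ⟨_, single_mem 0 (Or.inl rfl), by rw [mem_U1]; simp⟩
    ⟨_, single_mem 5 (Or.inr rfl), by rw [mem_U2]; simp⟩
  exact lt_asymm (show x.rep 5 ^ 2 < x.rep 0 ^ 2 from h1) h2

/-- There is a positive polytope in `Gr(2,4)`, with `m = 1` (a positive pentahedron) and
`h = 4 (p₁₂ + p₃₄) - 5 (p₁₃ + p₂₄) - 3 (p₁₄ + p₂₃)`, which is not connected, and hence not
contractible. -/
theorem result : ∃ (h : Fin 1 → V →ₗ[ℝ] ℝ) (S : Set P5),
    (∀ v : V, h 0 v = 4 * (v 0 + v 5) - 5 * (v 1 + v 4) - 3 * (v 3 + v 2)) ∧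
    IsPositivePolytope 1 h S ∧ ¬ IsConnected S ∧ ¬ ContractibleSpace S := by
  refine ⟨fun _ => hf, S0, hf_apply, S0_positive, fun h => S0_disconnected h.2, ?_⟩
  intro h
  have h1 : ConnectedSpace S0 := inferInstance
  exact S0_disconnected (isConnected_iff_connectedSpace.mpr h1).2

end Pool.Agent.Results.MP_7a7825_ag.DisconnectedPositivePolytope
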